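import Mathlib

open Finset

namespace Pool.Agent.Results.MP_199736_pr.Q2False

/-- Total variation distance of two laws on a finite set: `max_A |μ(A) - ν(A)|`. -/
noncomputable def tv {Ω : Type} (μ ν : Ω → ℝ) : ℝ := ⨆ A : Finset Ω, |∑ x ∈ A, μ x - ∑ x ∈ A, ν x|

/-- the kernels, as polynomials in `s = exp (-t)` -/
noncomputable def Q (s : ℝ) : Matrix (Fin 4) (Fin 4) ℝ :=
  !![(2 + 2 * s + 2 * s ^ 2) / 6, (2 - 2 * s ^ 2) / 6, (1 - s ^ 2) / 6, (1 - 2 * s + s ^ 2) / 6;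
    (2 - 2 * s ^ 2) / 6, (2 + 2 * s + 2 * s ^ 2) / 6, (1 - 2 * s + s ^ 2) / 6, (1 - s ^ 2) / 6;
    (2 - 2 * s ^ 2) / 6, (2 - 4 * s + 2 * s ^ 2) / 6, (1 + 4 * s + s ^ 2) / 6, (1 - s ^ 2) / 6;
    (2 - 4 * s + 2 * s ^ 2) / 6, (2 - 2 * s ^ 2) / 6, (1 - s ^ 2) / 6, (1 + 4 * s + s ^ 2) / 6]

/-- A continuous-time, monotone, reversible chain on the totally ordered set `Fin 4` in which, at
every positive time, some pair of starting states is farther apart than top and bottom. -/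
theorem result : ∃ (P : ℝ → Matrix (Fin 4) (Fin 4) ℝ) (π : Fin 4 → ℝ),
    Continuous P ∧ P 0 = 1 ∧ (∀ s t, 0 ≤ s → 0 ≤ t → P (s + t) = P s * P t) ∧
    (∀ t, 0 ≤ t → ∀ x, (∀ y, 0 ≤ P t x y) ∧ ∑ y, P t x y = 1) ∧
    (∀ x, 0 < π x) ∧ ∑ x, π x = 1 ∧ (∀ t, 0 ≤ t → ∀ x y, π x * P t x y = π y * P t y x) ∧
    (∀ t, 0 ≤ t → ∀ x y, x ≤ y → ∀ A : Finset (Fin 4), IsUpperSet (A : Set (Fin 4)) →
      ∑ z ∈ A, P t x z ≤ ∑ z ∈ A, P t y z) ∧
    ∃ x y, ∀ t, 0 < t → tv (P t ⊤) (P t ⊥) < tv (P t x) (P t y) := by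
  have hs : ∀ t : ℝ, 0 ≤ t → 0 < Real.exp (-t) ∧ Real.exp (-t) ≤ 1 := fun t ht =>
    ⟨Real.exp_pos _, Real.exp_le_one_iff.2 (by linarith)⟩
  have hA : ∀ (A : Finset (Fin 4)) (f : Fin 4 → ℝ), ∑ z ∈ A, f z =
      (if 0 ∈ A then f 0 else 0) + (if 1 ∈ A then f 1 else 0) + (if 2 ∈ A then f 2 else 0) +
        (if 3 ∈ A then f 3 else 0) := by
    intro A f
    rw [← Fin.sum_univ_four fun z => if z ∈ A then f z else 0, ← sum_filter]
    simp
  refine ⟨fun t => Q (Real.exp (-t)), ![1 / 3, 1 / 3, 1 / 6, 1 / 6], ?_, ?_, ?_, ?_, ?_, ?_, ?_, ?_,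
    2, 3, ?_⟩
  · refine continuous_matrix fun i j => ?_
    fin_cases i <;> fin_cases j <;> simp [Q] <;> fun_prop
  · ext i j
    fin_cases i <;> fin_cases j <;> norm_num [Q]
  · intro s t _ _
    beta_reduce
    rw [neg_add, Real.exp_add]
    ext i j
    fin_cases i <;> fin_cases j <;> simp [Q, Matrix.mul_apply, Fin.sum_univ_four] <;> ring
  · intro t ht x
    obtain ⟨h0, h1⟩ := hs t ht
    beta_reduce
    generalize Real.exp (-t) = s at h0 h1
    refine ⟨fun y => ?_, ?_⟩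
    · fin_cases x <;> fin_cases y <;> simp [Q] <;> nlinarith [sq_nonneg (1 - s)]
    · fin_cases x <;> simp [Q, Fin.sum_univ_four] <;> ring
  · intro x
    fin_cases x <;> simp
  · simp [Fin.sum_univ_four]
    norm_num
  · intro t _ x y
    fin_cases x <;> fin_cases y <;> simp [Q] <;> ring
  · intro t ht x y hxy A hU
    obtain ⟨h0, h1⟩ := hs t ht
    beta_reduce
    generalize Real.exp (-t) = s at h0 h1
    have u1 : 0 ∈ A → 1 ∈ A := fun h => hU (show (0 : Fin 4) ≤ 1 by decide) h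
    have u2 : 1 ∈ A → 2 ∈ A := fun h => hU (show (1 : Fin 4) ≤ 2 by decide) h
    have u3 : 2 ∈ A → 3 ∈ A := fun h => hU (show (2 : Fin 4) ≤ 3 by decide) h
    have hss : s ^ 2 ≤ s := by nlinarith
    have hs0 := sq_nonneg s
    clear hs
    simp only [hA]
    fin_cases x <;> fin_cases y <;> simp at hxy <;> split_ifs <;> simp_all [Q] <;> linarith
  · intro t ht
    have h0 := Real.exp_pos (-t)
    have h1 : Real.exp (-t) < 1 := Real.exp_lt_one_iff.2 (by linarith)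
    beta_reduce
    generalize Real.exp (-t) = s at h0 h1
    have hss : s ^ 2 < s := by nlinarith
    have hs0 := sq_nonneg s
    have e1 : tv (Q s ⊤) (Q s ⊥) ≤ s := by
      refine ciSup_le fun A => ?_
      have a3 : (⊤ : Fin 4) = 3 := rfl
      have a0 : (⊥ : Fin 4) = 0 := rfl
      simp only [hA, a3, a0, abs_le]
      split_ifs <;> simp [Q] <;> first | constructor <;> linarith | linarith
    have e2 : (4 * s - s ^ 2) / 3 ≤ tv (Q s 2) (Q s 3) := by
      refine le_trans ?_ (le_ciSup (Finite.bddAbove_range _) {0, 2})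
      refine le_trans (le_of_eq ?_) (le_abs_self _)
      simp [Q]
      ring
    linarith

end Pool.Agent.Results.MP_199736_pr.Q2False
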